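import Pool.Agent.H75.QP5

set_option autoImplicit false

open Pool.Agent.H75.QP in
theorem Pool.Agent.Results.MP_ac7c8e_an.MeetTV.result :
  ∀ (n : ℕ), 4 ≤ n → ∀ (A : Type) [CStarAlgebra A] (u : Fin n → Fin n → A), Universal u →
    ∃ φ : A →L[ℂ] ℂ, IsTrace φ ∧ ∀ ε : ℝ, ε > 0 → ∃ ψ : A →L[ℂ] ℂ,
      IsTrace ψ ∧ (∃ r s, Cpl u φ ψ r s ∧ r < ε) ∧ 1 ≤ ‖φ - ψ‖ :=
  fun _ hn _ _ _ hu => mainB hn hu
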