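import Pool.Agent.H75.QP10

set_option autoImplicit false

open Pool.Agent.H75.QP in
theorem Pool.Agent.Results.MP_ac7c8e_an.WeakOne.result :
  ∀ (n : ℕ), 5 ≤ n → ∀ (A : Type) [CStarAlgebra A] (u : Fin n → Fin n → A), Universal u →
    ∃ φ : A →L[ℂ] ℂ, IsTrace φ ∧ ∃ c : ℝ, c > 0 ∧ ∀ (S : Finset A) (ε : ℝ), ε > 0 →
      ∃ ψ : A →L[ℂ] ℂ, IsTrace ψ ∧ (∀ a ∈ S, ‖φ a - ψ a‖ < ε) ∧ ∀ r s, Cpl u φ ψ r s → c ≤ s :=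
  fun _ hn _ _ _ hu => mainD hn hu
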